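import Pool.Agent.H.MP_81ecdf_nt.Theta

/-! Arithmetic of `F_2(t, Θ)`. -/

open Polynomial

namespace Pool.Agent.H.MP_81ecdf_nt

theorem sq_add_K (x y : K2) : (x + y) ^ 2 = x ^ 2 + y ^ 2 := by
  have := add_self_K (x * y)
  linear_combination this

theorem sq_add_P (x y : F2[X]) : (x + y) ^ 2 = x ^ 2 + y ^ 2 := by
  have := add_self_P (x * y)
  linear_combination this

theorem frob_K (x y : K2) (j : ℕ) : (x + y) ^ (2 ^ j) = x ^ (2 ^ j) + y ^ (2 ^ j) := by
  induction j with
  | zero => simp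
  | succ j ih =>
    rw [pow_succ, pow_mul, ih, sq_add_K, ← pow_mul, ← pow_mul]

theorem frob_P (x y : F2[X]) (j : ℕ) : (x + y) ^ (2 ^ j) = x ^ (2 ^ j) + y ^ (2 ^ j) := by
  induction j with
  | zero => simp
  | succ j ih =>
    rw [pow_succ, pow_mul, ih, sq_add_P, ← pow_mul, ← pow_mul]

/-- The polynomial `P = t + 1`. -/
noncomputable def PP : F2[X] := X + 1

theorem PP_pow (j : ℕ) : PP ^ (2 ^ j) = X ^ (2 ^ j) + 1 := by
  unfold PP
  rw [frob_P, one_pow]

theorem PP_natDegree : PP.natDegree = 1 := by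
  unfold PP
  exact natDegree_X_add_C 1

theorem PP_ne_zero : PP ≠ 0 := by
  intro h
  have := PP_natDegree
  rw [h] at this
  simp at this

noncomputable def HH : ℕ → F2[X]
  | 0 => 0
  | (j + 1) => X ^ (2 * 2 ^ j) * HH j + X ^ (3 * 2 ^ j) + X ^ (2 ^ j)

theorem H_rel (j : ℕ) : X ^ 3 * HH j ^ 2 + X ^ (4 * 2 ^ j) * (X ^ 2 + 1) = X ^ 3 * HH (j + 1) := by
  induction j with
  | zero =>
    simp only [HH, pow_zero, mul_one]
    ring
  | succ j ih =>
    set N := 2 ^ j with hN
    have e1 : HH (j + 1) ^ 2 = X ^ (4 * N) * HH j ^ 2 + X ^ (6 * N) + X ^ (2 * N) := by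
      show (X ^ (2 * 2 ^ j) * HH j + X ^ (3 * 2 ^ j) + X ^ (2 ^ j)) ^ 2 = _
      rw [sq_add_P, sq_add_P, ← hN]
      ring
    have e2 : HH (j + 1 + 1) = X ^ (2 * 2 ^ (j + 1)) * HH (j + 1) + X ^ (3 * 2 ^ (j + 1)) +
      X ^ (2 ^ (j + 1)) := rfl
    have e3 : 2 ^ (j + 1) = 2 * N := by rw [pow_succ, hN]; ring
    rw [e2, e1, e3]
    linear_combination (X ^ (4 * N)) * ih

theorem theta_pow (j : ℕ) :
    em (X ^ (2 * 2 ^ j)) * theta ^ (2 ^ j) = em (X ^ (2 * 2 ^ j)) * theta + em (HH j) := by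
  induction j with
  | zero => simp [HH]
  | succ j ih =>
    set N := 2 ^ j with hN
    have e3 : 2 ^ (j + 1) = 2 * N := by rw [pow_succ, hN]; ring
    have h1 : (em (X ^ (2 * N)) * theta ^ N) ^ 2 = (em (X ^ (2 * N)) * theta + em (HH j)) ^ 2 := by
      rw [ih]
    rw [sq_add_K] at h1
    have h2 := theta_sq
    have h3 := congrArg em (H_rel j)
    rw [e3]
    have hT : em (X ^ 3) ≠ 0 := polyEmb_ne_zero (pow_ne_zero 3 X_ne_zero)
    apply mul_left_cancel₀ hT
    simp only [map_mul, map_add, map_pow, map_one] at h1 h2 h3 ⊢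
    rw [← hN] at h3
    set T := em X
    have h4 := add_self_K (T ^ (4 * N) * T ^ 3 * theta)
    linear_combination T ^ 3 * h1 + T ^ (4 * N) * h2 + h3 - h4


/-- `φ`, the fractional part of `t² Θ` -/
noncomputable def phi : K2 := em (X ^ 2) * theta + em (X + 1)

theorem coeff_theta_nonpos (n : ℤ) (hn : n ≤ 0) : theta.coeff n = 0 := by
  rcases lt_or_eq_of_le hn with h | h
  · exact coeff_theta_neg n h
  · subst h
    have := coeff_theta_nat 0
    rw [cc_zero] at this
    simpa using this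

theorem coeff_phi (n : ℤ) (hn : n ≤ 0) : phi.coeff n = 0 := by
  unfold phi
  have h1 : em (X ^ 2 : F2[X]) = HahnSeries.single (-2 : ℤ) (1 : F2) := by
    have := polyEmb_monomial (F := F2) 2 1
    rw [← X_pow_eq_monomial] at this
    simpa using this
  rw [HahnSeries.coeff_add, h1, HahnSeries.coeff_single_mul, one_mul, coeff_polyEmb, if_pos hn]
  by_cases h2 : n = 0
  · subst h2
    have e1 : theta.coeff ((0 : ℤ) - -2) = 1 := by
      have := coeff_theta_nat 2
      rw [cc_two] at this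
      simpa using this
    rw [e1]
    have e2 : ((X : F2[X]) + 1).coeff (-(0 : ℤ)).toNat = 1 := by simp
    rw [e2]
    decide
  · by_cases h3 : n = -1
    · subst h3
      have e1 : theta.coeff ((-1 : ℤ) - -2) = 1 := by
        have := coeff_theta_nat 1
        rw [cc_one] at this
        simpa using this
      rw [e1]
      have e2 : ((X : F2[X]) + 1).coeff (-(-1 : ℤ)).toNat = 1 := by
        have : (-(-1 : ℤ)).toNat = 1 := by decide
        rw [this]
        simp [coeff_one]
      rw [e2]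
      decide
    · rw [coeff_theta_nonpos _ (by omega), zero_add]
      rw [coeff_add, coeff_X, coeff_one, if_neg (by omega), if_neg (by omega), add_zero]

theorem dg_le_of_coeff {x : K2} (h : ∀ n : ℤ, n ≤ 0 → x.coeff n = 0) (hx : x ≠ 0) : dg x ≤ -1 := by
  rw [dg_le_iff hx]
  intro n hn
  exact h n (by omega)

theorem dg_phi_pow (N : ℕ) (h : phi ^ N ≠ 0) : dg (phi ^ N) ≤ -(N : ℤ) := by
  by_cases hN : N = 0
  · subst hN
    simp [dg_one]
  · have h0 : phi ≠ 0 := by
      intro h1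
      rw [h1] at h
      exact h (zero_pow hN)
    rw [dg_pow h0]
    have := dg_le_of_coeff coeff_phi h0
    nlinarith

theorem irr_theta : Irr theta := by
  have key : ∀ n : ℕ, ∀ p q : F2[X], q.natDegree = n → q ≠ 0 → em q * theta ≠ em p := by
    intro n
    induction n using Nat.strong_induction_on with
    | _ n ih =>
      intro p q hqn hq h
      have h1 : X ^ 3 * (p ^ 2 + p * q) = (X ^ 2 + 1) * q ^ 2 := by
        apply polyEmb_injective
        simp only [map_mul, map_add, map_pow, map_one]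
        have h2 := theta_sq
        simp only [map_add, map_pow, map_one] at h2
        rw [← h]
        linear_combination (em q) ^ 2 * h2
      have c1 : q.coeff 0 = 0 := by
        have := congrArg (fun f => Polynomial.coeff f 0) h1
        simpa [mul_coeff_zero, coeff_zero_eq_eval_zero] using this.symm
      obtain ⟨q1, rfl⟩ := X_dvd_iff.2 c1
      have h3 : X * (p ^ 2 + p * (X * q1)) = (X ^ 2 + 1) * q1 ^ 2 := by
        apply mul_left_cancel₀ (pow_ne_zero 2 (X_ne_zero : (X : F2[X]) ≠ 0))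
        linear_combination h1
      have c2 : q1.coeff 0 = 0 := by
        have := congrArg (fun f => Polynomial.coeff f 0) h3
        simpa [mul_coeff_zero, coeff_zero_eq_eval_zero] using this.symm
      obtain ⟨q2, rfl⟩ := X_dvd_iff.2 c2
      have h4 : (p ^ 2 + p * (X * (X * q2))) = (X ^ 2 + 1) * X * q2 ^ 2 := by
        apply mul_left_cancel₀ (X_ne_zero : (X : F2[X]) ≠ 0)
        linear_combination h3
      have c3 : p.coeff 0 = 0 := by
        have := congrArg (fun f => Polynomial.coeff f 0) h4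
        simpa [mul_coeff_zero, coeff_zero_eq_eval_zero] using this
      obtain ⟨p1, rfl⟩ := X_dvd_iff.2 c3
      have hq2 : q2 ≠ 0 := by
        rintro rfl
        simp at hq
      have hd : (X * q2).natDegree < n := by
        rw [← hqn, natDegree_X_mul hq2, natDegree_X_mul (mul_ne_zero X_ne_zero hq2),
          natDegree_X_mul hq2]
        omega
      apply ih _ hd p1 (X * q2) rfl (mul_ne_zero X_ne_zero hq2)
      have hT : em X ≠ 0 := polyEmb_ne_zero X_ne_zero
      apply mul_left_cancel₀ hT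
      rw [← map_mul, ← h]
      simp only [map_mul]
      ring
  intro p q hq
  exact key _ p q rfl hq

noncomputable def aa : F2[X] := X ^ 4 + X ^ 3 + 1

/-- the fundamental unit -/
noncomputable def ss : K2 := em aa + em (X ^ 3 * PP ^ 2) * theta

theorem aa_rel : aa ^ 2 + aa * (X ^ 3 * PP ^ 2) + X ^ 3 * PP ^ 4 * (X ^ 2 + 1) = 1 := by
  unfold aa PP
  have h2 : (2 : F2[X]) = 0 := by
    have := add_self_P 1
    rw [← this]
    ring
  linear_combination (2 * X ^ 3 + 4 * X ^ 4 + 4 * X ^ 5 + 5 * X ^ 6 + 6 * X ^ 7 + 4 * X ^ 8 +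
    X ^ 9) * h2

theorem ss_mul : ss * (ss + em (X ^ 3 * PP ^ 2)) = 1 := by
  unfold ss
  have h1 := congrArg em aa_rel
  have h2 := theta_sq
  simp only [map_mul, map_add, map_pow, map_one] at h1 h2 ⊢
  have h3 := add_self_K (em aa * (em X ^ 3 * em PP ^ 2) * theta)
  linear_combination h1 + (em X ^ 3 * em PP ^ 4) * h2 + h3

theorem ss_ne : ss ≠ 0 := left_ne_zero_of_mul_eq_one ss_mul

theorem b_ne : (X ^ 3 * PP ^ 2 : F2[X]) ≠ 0 :=
  mul_ne_zero (pow_ne_zero _ X_ne_zero) (pow_ne_zero _ PP_ne_zero)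

theorem b_deg : (X ^ 3 * PP ^ 2 : F2[X]).natDegree = 5 := by
  rw [natDegree_mul (pow_ne_zero _ X_ne_zero) (pow_ne_zero _ PP_ne_zero), natDegree_pow,
    natDegree_pow, natDegree_X, PP_natDegree]

theorem dg_ss : dg ss = -5 := by
  have hb := dg_polyEmb b_ne
  rw [b_deg] at hb
  have hθ : dg theta ≤ -1 := dg_le_of_coeff coeff_theta_nonpos irr_theta.ne_zero
  have haa : aa ≠ 0 := by
    intro h
    have := congrArg (fun f => Polynomial.coeff f 0) h
    simp [aa] at this
  have h1 : dg ss ≤ 4 := by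
    have h2 := dg_add_le (x := em aa) (y := em (X ^ 3 * PP ^ 2) * theta) ss_ne
    have h3 : dg (em aa) ≤ 4 := by
      rw [dg_polyEmb haa]
      have : aa.natDegree ≤ 4 := by
        unfold aa
        compute_degree
      exact_mod_cast this
    have h4 : dg (em (X ^ 3 * PP ^ 2) * theta) ≤ 4 := by
      rw [dg_mul (polyEmb_ne_zero b_ne) irr_theta.ne_zero]
      show dg (polyEmb F2 _) + _ ≤ 4
      omega
    exact h2.trans (max_le h3 h4)
  have h5 := dg_add_lt (x := ss) (y := em (X ^ 3 * PP ^ 2)) (fun _ => by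
    show _ < dg (polyEmb F2 _)
    rw [hb]; push_cast; omega) (polyEmb_ne_zero b_ne)
  have h6 := congrArg dg ss_mul
  rw [dg_mul ss_ne h5.1, h5.2, dg_one] at h6
  have h7 : dg (em (X ^ 3 * PP ^ 2)) = 5 := hb
  omega

noncomputable def AA : ℕ → F2[X]
  | 0 => aa
  | (j + 1) => AA j ^ 2 + X ^ (6 * 2 ^ j - 3) * PP ^ (4 * 2 ^ j + 2)

theorem PP_sq : PP ^ 2 = X ^ 2 + 1 := by
  have := PP_pow 1
  simpa using this

theorem ss_pow (j : ℕ) :
    ss ^ (2 ^ j) = em (AA j) + em (X ^ (3 * 2 ^ j) * PP ^ (2 * 2 ^ j)) * theta := by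
  induction j with
  | zero => simp [AA, ss]
  | succ j ih =>
    set N := 2 ^ j with hN
    have hN1 : 1 ≤ N := Nat.one_le_two_pow
    have e3 : 2 ^ (j + 1) = N * 2 := by rw [pow_succ, hN]
    have e4 : AA (j + 1) = AA j ^ 2 + X ^ (6 * N - 3) * PP ^ (4 * N + 2) := rfl
    rw [e3, pow_mul, ih, sq_add_K, e4]
    obtain ⟨m, hm⟩ : ∃ m, 6 * N = m + 3 := ⟨6 * N - 3, by omega⟩
    have e5 : 6 * N - 3 = m := by omega
    have e6 : 3 * (N * 2) = m + 3 := by omega
    have e7 : 2 * (N * 2) = 4 * N := by ring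
    rw [e5, e6, e7, mul_pow]
    have e8 : em (X ^ (3 * N) * PP ^ (2 * N)) ^ 2 = em X ^ (m + 3) * em PP ^ (4 * N) := by
      rw [← map_pow, mul_pow, ← pow_mul, ← pow_mul, map_mul, map_pow, map_pow]
      congr 2 <;> omega
    rw [e8]
    have h2 := theta_sq
    have h3 := congrArg em PP_sq
    simp only [map_mul, map_add, map_pow, map_one] at h2 h3 ⊢
    have h4 := add_self_K (em X ^ (m + 3) * em PP ^ (4 * N) * theta)
    linear_combination (em X ^ m * em PP ^ (4 * N)) * h2 - (em X ^ m * em PP ^ (4 * N)) * h3 - h4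

end Pool.Agent.H.MP_81ecdf_nt
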