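import Pool.Agent.H.MP_81ecdf_nt.Defs

/-! Basic facts on the polynomial part and degrees in `F((t⁻¹))`. -/

open Polynomial

namespace Pool.Agent.H.MP_81ecdf_nt

variable {F : Type*} [Field F]

theorem polyEmb_monomial (n : ℕ) (a : F) :
    polyEmb F (monomial n a) = HahnSeries.single (-(n : ℤ)) a := by
  simp only [polyEmb, coe_eval₂RingHom, eval₂_monomial]
  have : (HahnSeries.single (-1 : ℤ) (1 : F)) ^ n = HahnSeries.single (-(n : ℤ)) (1 : F) := by
    rw [HahnSeries.single_pow]
    simp
  rw [this, HahnSeries.C_apply, HahnSeries.single_mul_single]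
  simp

theorem polyEmb_X : polyEmb F X = HahnSeries.single (-1 : ℤ) (1 : F) := by
  simp [polyEmb]

theorem coeff_polyEmb (p : F[X]) (n : ℤ) :
    (polyEmb F p).coeff n = if n ≤ 0 then p.coeff (-n).toNat else 0 := by
  induction p using Polynomial.induction_on' with
  | add p q hp hq =>
    rw [map_add, HahnSeries.coeff_add, hp, hq]
    split_ifs <;> simp
  | monomial m a =>
    rw [polyEmb_monomial, HahnSeries.coeff_single]
    by_cases h : n = -(m : ℤ)
    · subst h
      simp
    · rw [if_neg h]
      split_ifs with h2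
      · rw [coeff_monomial, if_neg]
        omega
      · rfl

theorem polyEmb_injective : Function.Injective (polyEmb F) := by
  intro p q h
  ext n
  have := congrArg (fun x => HahnSeries.coeff x (-(n : ℤ))) h
  simpa [coeff_polyEmb] using this

theorem polyEmb_eq_zero {p : F[X]} : polyEmb F p = 0 ↔ p = 0 := by
  rw [← map_zero (polyEmb F)]
  exact polyEmb_injective.eq_iff

theorem polyEmb_ne_zero {p : F[X]} (hp : p ≠ 0) : polyEmb F p ≠ 0 :=
  fun h => hp (polyEmb_eq_zero.1 h)

/-- degree of a nonzero element -/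
noncomputable def dg (x : LaurentSeries F) : ℤ := -x.order

theorem dg_mul {x y : LaurentSeries F} (hx : x ≠ 0) (hy : y ≠ 0) : dg (x * y) = dg x + dg y := by
  unfold dg
  rw [HahnSeries.order_mul hx hy]
  ring

theorem dg_one : dg (1 : LaurentSeries F) = 0 := by
  simp [dg]

theorem dg_inv {x : LaurentSeries F} (hx : x ≠ 0) : dg x⁻¹ = - dg x := by
  have h := dg_mul hx (inv_ne_zero hx)
  rw [mul_inv_cancel₀ hx, dg_one] at h
  linarith

theorem dg_div {x y : LaurentSeries F} (hx : x ≠ 0) (hy : y ≠ 0) : dg (x / y) = dg x - dg y := by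
  rw [div_eq_mul_inv, dg_mul hx (inv_ne_zero hy), dg_inv hy]
  ring

theorem dg_pow {x : LaurentSeries F} (hx : x ≠ 0) (n : ℕ) : dg (x ^ n) = n * dg x := by
  induction n with
  | zero => simp [dg_one]
  | succ n ih =>
    rw [pow_succ, dg_mul (pow_ne_zero n hx) hx, ih]
    push_cast
    ring

theorem dg_le_iff {x : LaurentSeries F} (hx : x ≠ 0) (m : ℤ) :
    dg x ≤ m ↔ ∀ n : ℤ, n < -m → x.coeff n = 0 := by
  unfold dg
  constructor
  · intro h n hn
    exact HahnSeries.coeff_eq_zero_of_lt_order (by omega)
  · intro h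
    by_contra hc
    push Not at hc
    have := h x.order (by omega)
    rw [HahnSeries.coeff_order_eq_zero] at this
    exact hx this

theorem dg_add_le {x y : LaurentSeries F} (hxy : x + y ≠ 0) : dg (x + y) ≤ max (dg x) (dg y) := by
  have := HahnSeries.min_order_le_order_add hxy
  unfold dg
  rcases min_le_iff.1 this with h | h
  · exact le_max_of_le_left (by omega)
  · exact le_max_of_le_right (by omega)

theorem dg_add_lt {x y : LaurentSeries F} (hx : x ≠ 0 → dg x < dg y) (hy : y ≠ 0) :
    x + y ≠ 0 ∧ dg (x + y) = dg y := by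
  by_cases hx0 : x = 0
  · subst hx0
    simp [hy]
  · have h := hx hx0
    have h1 : y.orderTop < x.orderTop := by
      rw [← HahnSeries.order_eq_orderTop_of_ne_zero hx0,
        ← HahnSeries.order_eq_orderTop_of_ne_zero hy]
      unfold dg at h
      exact_mod_cast (by omega : y.order < x.order)
    have h2 := HahnSeries.orderTop_add_eq_right h1
    have h3 : x + y ≠ 0 := by
      rw [← HahnSeries.orderTop_ne_top, h2, HahnSeries.orderTop_ne_top]
      exact hy
    refine ⟨h3, ?_⟩
    rw [← HahnSeries.order_eq_orderTop_of_ne_zero h3,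
        ← HahnSeries.order_eq_orderTop_of_ne_zero hy] at h2
    unfold dg
    have : (x + y).order = y.order := by exact_mod_cast h2
    rw [this]

theorem dg_polyEmb {p : F[X]} (hp : p ≠ 0) : dg (polyEmb F p) = p.natDegree := by
  have h0 := polyEmb_ne_zero hp
  apply le_antisymm
  · rw [dg_le_iff h0]
    intro n hn
    rw [coeff_polyEmb]
    split_ifs with h
    · apply coeff_eq_zero_of_natDegree_lt
      omega
    · rfl
  · by_contra hc
    push Not at hc
    have h1 : dg (polyEmb F p) ≤ (p.natDegree : ℤ) - 1 := by omega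
    rw [dg_le_iff h0] at h1
    have h2 := h1 (-(p.natDegree : ℤ)) (by omega)
    rw [coeff_polyEmb] at h2
    simp at h2
    exact hp h2

theorem dg_polyEmb_nonneg {p : F[X]} (hp : p ≠ 0) : 0 ≤ dg (polyEmb F p) := by
  rw [dg_polyEmb hp]
  positivity

theorem coeff_polyPart (x : LaurentSeries F) (n : ℕ) :
    (polyPart x).coeff n = x.coeff (-(n : ℤ)) := by
  unfold polyPart
  rw [finsetSum_coeff]
  simp only [coeff_monomial]
  rw [Finset.sum_ite_eq']
  split_ifs with h
  · rfl
  · symm
    apply HahnSeries.coeff_eq_zero_of_lt_order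
    simp only [Finset.mem_range, not_lt] at h
    omega

theorem coeff_sub_polyPart (x : LaurentSeries F) (n : ℤ) (hn : n ≤ 0) :
    (x - polyEmb F (polyPart x)).coeff n = 0 := by
  rw [HahnSeries.coeff_sub, coeff_polyEmb, if_pos hn, coeff_polyPart]
  have : -(((-n).toNat : ℕ) : ℤ) = n := by omega
  rw [this, sub_self]

theorem dg_sub_polyPart (x : LaurentSeries F) (hx : x - polyEmb F (polyPart x) ≠ 0) :
    dg (x - polyEmb F (polyPart x)) ≤ -1 := by
  rw [dg_le_iff hx]
  intro n hn
  exact coeff_sub_polyPart x n (by omega)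

theorem natDegree_polyPart {x : LaurentSeries F} (hx : x ≠ 0) (h : 0 ≤ dg x) :
    polyPart x ≠ 0 ∧ ((polyPart x).natDegree : ℤ) = dg x := by
  have h1 : polyPart x ≠ 0 := by
    intro h0
    have h2 : (polyPart x).coeff (dg x).toNat = 0 := by rw [h0]; simp
    rw [coeff_polyPart] at h2
    have h3 : -(((dg x).toNat : ℕ) : ℤ) = x.order := by
      unfold dg at *; omega
    rw [h3, HahnSeries.coeff_order_eq_zero] at h2
    exact hx h2
  refine ⟨h1, ?_⟩
  have h4 : x = (x - polyEmb F (polyPart x)) + polyEmb F (polyPart x) := by ring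
  have h5 := dg_polyEmb_nonneg h1
  have h6 := dg_add_lt (x := x - polyEmb F (polyPart x)) (y := polyEmb F (polyPart x))
    (fun hne => by have := dg_sub_polyPart x hne; omega) (polyEmb_ne_zero h1)
  rw [← dg_polyEmb h1, ← h6.2, ← h4]

/-- a polynomial of negative degree is zero -/
theorem eq_zero_of_dg_neg {p : F[X]} (h : p ≠ 0 → dg (polyEmb F p) < 0) : p = 0 := by
  by_contra hp
  have := dg_polyEmb_nonneg hp
  have := h hp
  omega

/-- Irrationality. -/
def Irr (x : LaurentSeries F) : Prop := ∀ p q : F[X], q ≠ 0 → polyEmb F q * x ≠ polyEmb F p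

theorem Irr.ne_zero {x : LaurentSeries F} (h : Irr x) : x ≠ 0 := by
  intro h0
  apply h 0 1 one_ne_zero
  simp [h0]

theorem Irr.sub_poly {x : LaurentSeries F} (h : Irr x) (r : F[X]) : Irr (x - polyEmb F r) := by
  intro p q hq h1
  apply h (p + q * r) q hq
  rw [map_add, map_mul, ← h1]
  ring

theorem Irr.inv {x : LaurentSeries F} (h : Irr x) : Irr x⁻¹ := by
  intro p q hq h1
  have hx := h.ne_zero
  by_cases hp : p = 0
  · subst hp
    simp only [map_zero, mul_eq_zero, inv_eq_zero] at h1
    rcases h1 with h1 | h1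
    · exact hq (polyEmb_eq_zero.1 h1)
    · exact hx h1
  · apply h q p hp
    rw [← h1]
    field_simp

theorem completeQuot_succ (x : LaurentSeries F) (n : ℕ) :
    completeQuot x (n + 1) = (completeQuot x n - polyEmb F (partialQuot x n))⁻¹ := rfl

theorem irr_completeQuot {x : LaurentSeries F} (h : Irr x) (n : ℕ) : Irr (completeQuot x n) := by
  induction n with
  | zero => exact h
  | succ n ih =>
    rw [completeQuot_succ]
    exact (ih.sub_poly _).inv

theorem dg_completeQuot {x : LaurentSeries F} (h : Irr x) (n : ℕ) :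
    1 ≤ dg (completeQuot x (n + 1)) := by
  have h1 := (irr_completeQuot h n).sub_poly (partialQuot x n)
  rw [completeQuot_succ, dg_inv h1.ne_zero]
  have := dg_sub_polyPart (completeQuot x n) h1.ne_zero
  unfold partialQuot
  omega

theorem natDegree_partialQuot {x : LaurentSeries F} (h : Irr x) (n : ℕ) :
    ((partialQuot x (n + 1)).natDegree : ℤ) = dg (completeQuot x (n + 1)) := by
  have := natDegree_polyPart (irr_completeQuot h (n + 1)).ne_zero
    (by have := dg_completeQuot h n; omega)
  exact this.2

theorem one_le_natDegree_partialQuot {x : LaurentSeries F} (h : Irr x) (n : ℕ) :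
    1 ≤ (partialQuot x (n + 1)).natDegree := by
  have h1 := natDegree_partialQuot h n
  have h2 := dg_completeQuot h n
  omega

end Pool.Agent.H.MP_81ecdf_nt
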