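import Pool.Agent.H.MP_81ecdf_nt.Basic

/-! Continued fractions over `F_2((t⁻¹))`. -/

open Polynomial

namespace Pool.Agent.H.MP_81ecdf_nt

abbrev F2 := ZMod 2
abbrev K2 := LaurentSeries F2

theorem add_self_K (x : K2) : x + x = 0 := by
  ext n
  rw [HahnSeries.coeff_add, HahnSeries.coeff_zero]
  exact CharTwo.add_self_eq_zero _

theorem add_self_P (x : F2[X]) : x + x = 0 := CharTwo.add_self_eq_zero x

theorem neg_K (x : K2) : -x = x := by
  rw [neg_eq_iff_add_eq_zero]
  exact add_self_K x

theorem sub_K (x y : K2) : x - y = x + y := by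
  rw [sub_eq_add_neg, neg_K]

/-- abbreviation of the embedding -/
noncomputable abbrev em : F2[X] →+* K2 := polyEmb F2

noncomputable def E (x : K2) : ℕ → K2
  | 0 => 1
  | (n + 1) => E x n / completeQuot x (n + 1)

noncomputable def Qn (x : K2) : ℕ → F2[X]
  | 0 => 0
  | 1 => 1
  | (n + 2) => partialQuot x (n + 1) * Qn x (n + 1) + Qn x n

noncomputable def Pn (x : K2) : ℕ → F2[X]
  | 0 => 1
  | 1 => partialQuot x 0
  | (n + 2) => partialQuot x (n + 1) * Pn x (n + 1) + Pn x n

noncomputable def D (x : K2) (n : ℕ) : ℕ := ∑ i ∈ Finset.range n, (partialQuot x (i + 1)).natDegree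

theorem D_zero (x : K2) : D x 0 = 0 := rfl

theorem D_succ (x : K2) (n : ℕ) : D x (n + 1) = D x n + (partialQuot x (n + 1)).natDegree := by
  unfold D
  rw [Finset.sum_range_succ]

section
variable {x : K2} (hx : Irr x)
include hx

theorem cq_ne (n : ℕ) : completeQuot x n ≠ 0 := (irr_completeQuot hx n).ne_zero

theorem E_ne (n : ℕ) : E x n ≠ 0 := by
  induction n with
  | zero => exact one_ne_zero
  | succ n ih => exact div_ne_zero ih (cq_ne hx _)

omit hx in
theorem cq_eq (n : ℕ) :
    completeQuot x n = em (partialQuot x n) + (completeQuot x (n + 1))⁻¹ := by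
  rw [completeQuot_succ, inv_inv]
  ring

theorem cq_eq_div (n : ℕ) : completeQuot x (n + 1) = E x n / E x (n + 1) := by
  have h1 := E_ne hx n
  have h2 := cq_ne hx (n + 1)
  show _ = E x n / (E x n / completeQuot x (n + 1))
  field_simp

theorem E_rec (n : ℕ) : E x (n + 2) = em (partialQuot x (n + 1)) * E x (n + 1) + E x n := by
  have h1 := cq_eq (x := x) (n + 1)
  rw [cq_eq_div hx n, cq_eq_div hx (n + 1)] at h1
  have h2 := E_ne hx (n + 1)
  have h3 := E_ne hx (n + 2)
  have h4 := E_ne hx n
  field_simp at h1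
  rw [h1]
  have := add_self_K (em (partialQuot x (n + 1)) * E x (n + 1))
  linear_combination (-1 : K2) * this

theorem E_eq (n : ℕ) : E x n = em (Qn x n) * x + em (Pn x n) := by
  induction n using Nat.twoStepInduction with
  | zero => simp [E, Qn, Pn]
  | one =>
    show (1 : K2) / completeQuot x 1 = _
    rw [completeQuot_succ]
    simp only [Qn, Pn, map_one, one_mul, one_div, inv_inv]
    rw [sub_K]
    rfl
  | more n ih1 ih2 =>
    rw [E_rec hx, ih1, ih2]
    simp only [Qn, Pn, map_add, map_mul]
    ring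

theorem dg_E (n : ℕ) : dg (E x n) = -(D x n : ℤ) := by
  induction n with
  | zero => simp [E, D_zero, dg_one]
  | succ n ih =>
    show dg (E x n / completeQuot x (n + 1)) = _
    rw [dg_div (E_ne hx n) (cq_ne hx _), ih, D_succ, ← natDegree_partialQuot hx]
    push_cast
    ring

theorem D_lt (n : ℕ) : D x n < D x (n + 1) := by
  rw [D_succ]
  have := one_le_natDegree_partialQuot hx n
  omega

theorem D_strictMono : StrictMono (D x) := strictMono_nat_of_lt_succ (D_lt hx)

theorem Qn_deg (n : ℕ) : Qn x (n + 1) ≠ 0 ∧ (Qn x (n + 1)).natDegree = D x n := by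
  induction n using Nat.twoStepInduction with
  | zero => simp [Qn, D_zero]
  | one =>
    have h := one_le_natDegree_partialQuot hx 0
    have h2 : Qn x (1 + 1) = partialQuot x 1 := by
      show partialQuot x (0 + 1) * 1 + 0 = _
      simp
    rw [h2]
    refine ⟨?_, ?_⟩
    · intro h0
      simp only [zero_add] at h
      rw [h0] at h
      simp at h
    · simp [D]
  | more n ih1 ih2 =>
    have ha := one_le_natDegree_partialQuot hx (n + 1)
    have hane : partialQuot x (n + 1 + 1) ≠ 0 := by
      intro h0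
      rw [h0] at ha
      simp at ha
    have h1 : (partialQuot x (n + 1 + 1) * Qn x (n + 1 + 1)).natDegree = D x (n + 2) := by
      rw [natDegree_mul hane ih2.1, ih2.2, D_succ x (n + 1)]
      ring
    have h2 : (Qn x (n + 1)).natDegree < (partialQuot x (n + 1 + 1) * Qn x (n + 1 + 1)).natDegree := by
      rw [h1, ih1.2]
      exact D_strictMono hx (by omega)
    have h3 : Qn x (n + 1 + 1 + 1) = partialQuot x (n + 1 + 1) * Qn x (n + 1 + 1) + Qn x (n + 1) := rfl
    have h4 : (Qn x (n + 1 + 1 + 1)).natDegree = D x (n + 2) := by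
      rw [h3, natDegree_add_eq_left_of_natDegree_lt h2, h1]
    refine ⟨?_, h4⟩
    intro h0
    rw [h0] at h4
    have : D x 0 < D x (n + 2) := D_strictMono hx (by omega)
    rw [← h4] at this
    simp at this

omit hx in
theorem det (n : ℕ) : Qn x n * Pn x (n + 1) + Qn x (n + 1) * Pn x n = 1 := by
  induction n with
  | zero => simp [Qn, Pn]
  | succ n ih =>
    show Qn x (n + 1) * (partialQuot x (n + 1) * Pn x (n + 1) + Pn x n) +
      (partialQuot x (n + 1) * Qn x (n + 1) + Qn x n) * Pn x (n + 1) = 1
    have := add_self_P (Qn x (n + 1) * partialQuot x (n + 1) * Pn x (n + 1))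
    linear_combination ih + this

theorem lin_ne {q p : F2[X]} (h : q ≠ 0 ∨ p ≠ 0) : em q * x + em p ≠ 0 := by
  intro h0
  by_cases hq : q = 0
  · subst hq
    have hp : p ≠ 0 := by simpa using h
    simp only [map_zero, zero_mul, zero_add] at h0
    exact hp (polyEmb_eq_zero.1 h0)
  · apply hx p q hq
    rw [add_eq_zero_iff_eq_neg, neg_K] at h0
    exact h0

end

theorem isUnit_F2 {u : F2[X]} (h : IsUnit u) : u = 1 := by
  rw [Polynomial.isUnit_iff] at h
  obtain ⟨r, hr, rfl⟩ := h
  have : ∀ r : F2, IsUnit r → r = 1 := by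
    intro r hr
    have h0 : r ≠ 0 := hr.ne_zero
    revert h0
    clear hr
    revert r
    decide
  rw [this r hr, map_one]

theorem basis_solve (x : K2) (n : ℕ) (q p : F2[X]) :
    q = (q * Pn x (n + 1) + p * Qn x (n + 1)) * Qn x n +
      (q * Pn x n + p * Qn x n) * Qn x (n + 1) ∧
    p = (q * Pn x (n + 1) + p * Qn x (n + 1)) * Pn x n +
      (q * Pn x n + p * Qn x n) * Pn x (n + 1) := by
  have h := det (x := x) n
  constructor
  · have := add_self_P (p * Qn x (n + 1) * Qn x n)
    linear_combination (-q) * h - this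
  · have := add_self_P (q * Pn x (n + 1) * Pn x n)
    linear_combination (-p) * h - this

/-- Legendre type criterion for convergents. -/
theorem legendre {x : K2} (hx : Irr x) {q p : F2[X]} (hq : q ≠ 0) (hc : IsCoprime q p)
    (h : dg (em q * x + em p) + q.natDegree < 0) :
    ∃ n, q = Qn x (n + 1) ∧ p = Pn x (n + 1) := by
  obtain ⟨n, hn1, hn2⟩ : ∃ n, D x n ≤ q.natDegree ∧ q.natDegree < D x (n + 1) := by
    have hex : ∃ n, q.natDegree < D x n := by
      refine ⟨q.natDegree + 1, ?_⟩
      have := (D_strictMono hx).id_le (q.natDegree + 1)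
      simp only [id_eq] at this
      omega
    have hs := Nat.find_spec hex
    have hpos : Nat.find hex ≠ 0 := by
      intro h0
      rw [h0, D_zero] at hs
      omega
    obtain ⟨n, hn⟩ := Nat.exists_eq_succ_of_ne_zero hpos
    refine ⟨n, ?_, ?_⟩
    · have := Nat.find_min hex (m := n) (by omega)
      omega
    · rw [hn] at hs
      exact hs
  have hζ := lin_ne hx (q := q) (p := p) (Or.inl hq)
  have hv : q * Pn x (n + 1) + p * Qn x (n + 1) = 0 := by
    apply eq_zero_of_dg_neg
    intro hne
    have hne' := polyEmb_ne_zero hne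
    have e1 : em (q * Pn x (n + 1) + p * Qn x (n + 1)) =
        em q * E x (n + 1) + (em q * x + em p) * em (Qn x (n + 1)) := by
      rw [E_eq hx]
      simp only [map_add, map_mul]
      have := add_self_K (em q * em (Qn x (n + 1)) * x)
      linear_combination (-1 : K2) * this
    have e2 : dg (em q * E x (n + 1)) < 0 := by
      rw [dg_mul (polyEmb_ne_zero hq) (E_ne hx _), dg_polyEmb hq, dg_E hx]
      omega
    have e3 : dg ((em q * x + em p) * em (Qn x (n + 1))) < 0 := by
      rw [dg_mul hζ (polyEmb_ne_zero (Qn_deg hx n).1), dg_polyEmb (Qn_deg hx n).1, (Qn_deg hx n).2]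
      omega
    have e4 : em q * E x (n + 1) + (em q * x + em p) * em (Qn x (n + 1)) ≠ 0 := by
      rw [← e1]; exact hne'
    have e5 := dg_add_le e4
    show dg (em (q * Pn x (n + 1) + p * Qn x (n + 1))) < 0
    rw [e1]
    exact lt_of_le_of_lt e5 (max_lt e2 e3)
  have hb := basis_solve x (n + 1) q p
  rw [hv] at hb
  simp only [zero_mul, add_zero] at hb
  have hu : IsUnit (q * Pn x (n + 1 + 1) + p * Qn x (n + 1 + 1)) := by
    apply hc.isUnit_of_dvd'
    · exact Dvd.intro _ hb.1.symm
    · exact Dvd.intro _ hb.2.symm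
  rw [isUnit_F2 hu] at hb
  exact ⟨n, by simpa using hb.1, by simpa using hb.2⟩

/-- membership in the lattice `F_2[t] x + F_2[t]` -/
def Lat (x z : K2) : Prop := ∃ q p : F2[X], z = em q * x + em p

/-- If multiplication by `s`, which is a value `E x M`, and by its inverse preserve the lattice
`F_2[t] x + F_2[t]`, then the expansion of `x` is periodic from index `1` with period `M`. -/
theorem cq_periodic {x : K2} (hx : Irr x) {s s' : K2} {M : ℕ} (hs : s = E x M)
    (hss : s * s' = 1) (h1 : ∀ z, Lat x z → Lat x (s * z)) (h2 : ∀ z, Lat x z → Lat x (s' * z)) :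
    completeQuot x (M + 1) = completeQuot x 1 := by
  have hs0 : s ≠ 0 := left_ne_zero_of_mul_eq_one hss
  have hE1 := E_eq hx 1
  have hLE1 : Lat x (E x 1) := ⟨Qn x 1, Pn x 1, hE1⟩
  obtain ⟨q, p, hqp⟩ := h1 _ hLE1
  obtain ⟨q', p', hqp'⟩ := h2 _ (⟨Qn x (M + 1), Pn x (M + 1), E_eq hx (M + 1)⟩ : Lat x (E x (M + 1)))
  -- s E_1 = u' s + v' E_{M+1}
  set u' := q * Pn x (M + 1) + p * Qn x (M + 1) with hu'
  set v' := q * Pn x M + p * Qn x M with hv'
  have hb := basis_solve x M q p
  rw [← hu', ← hv'] at hb
  have e1 : s * E x 1 = em u' * s + em v' * E x (M + 1) := by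
    rw [hqp, hs, E_eq hx M, E_eq hx (M + 1)]
    conv_lhs => rw [hb.1, hb.2]
    simp only [map_add, map_mul]
    ring
  -- s' E_{M+1} = u + v E_1
  have hQ1 : Qn x 1 = 1 := rfl
  have hP1 : Pn x 1 = partialQuot x 0 := rfl
  rw [hQ1, hP1, map_one, one_mul] at hE1
  have e2 : s' * E x (M + 1) = em (q' * partialQuot x 0 + p') + em q' * E x 1 := by
    rw [hqp', hE1]
    simp only [map_add, map_mul]
    have := add_self_K (em q' * em (partialQuot x 0))
    linear_combination (-1 : K2) * this
  set u := q' * partialQuot x 0 + p' with hu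
  have e3 : E x (M + 1) = em u * s + em q' * (s * E x 1) := by
    have : E x (M + 1) = s * (s' * E x (M + 1)) := by
      rw [← mul_assoc, hss, one_mul]
    rw [this, e2]
    ring
  have hD : D x M < D x (M + 1) := D_lt hx M
  have hq'0 : q' ≠ 0 := by
    intro h0
    rw [h0, map_zero, zero_mul, add_zero] at e3
    have hu0 : u ≠ 0 := by
      intro h0
      rw [h0, map_zero, zero_mul] at e3
      exact E_ne hx _ e3
    have h3 := congrArg dg e3
    rw [dg_mul (polyEmb_ne_zero hu0) hs0, dg_E hx, dg_polyEmb hu0, hs, dg_E hx] at h3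
    omega
  -- (1 + q' v') (u + q' E_1) = u + q' u'
  have e4 : (1 + em q' * em v') * (em u + em q' * E x 1) = em u + em q' * em u' := by
    have h5 : (em u * s + em q' * (em u' * s + em v' * E x (M + 1))) = E x (M + 1) := by
      rw [← e1, ← e3]
    have h6 : s' * (em u * s + em q' * (em u' * s + em v' * E x (M + 1))) =
        em u + em q' * em u' + em q' * em v' * (s' * E x (M + 1)) := by
      have : s' * s = 1 := by rw [mul_comm]; exact hss
      linear_combination (em u + em q' * em u') * this
    rw [h5, e2] at h6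
    have := add_self_K (em q' * em v' * (em u + em q' * E x 1))
    linear_combination h6 + this
  have e5 : em ((1 + q' * v') * q') * x +
      em ((1 + q' * v') * (u + q' * partialQuot x 0) + u + q' * u') = 0 := by
    rw [hE1] at e4
    simp only [map_add, map_mul, map_one]
    have := add_self_K (em u + em q' * em u')
    linear_combination e4 + this
  have e6 : (1 + q' * v') * q' = 0 := by
    by_contra hne
    exact lin_ne hx (Or.inl hne) e5
  have e7 : q' * v' = 1 := by
    rcases mul_eq_zero.1 e6 with h | h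
    · have := add_self_P (q' * v')
      linear_combination this - h
    · exact absurd h hq'0
  have hv'1 : v' = 1 := isUnit_F2 (IsUnit.of_mul_eq_one_right _ e7)
  rw [hv'1, map_one, one_mul] at e1
  have hu'0 : u' = 0 := by
    by_contra hne
    have e8 : em u' * s = s * E x 1 + E x (M + 1) := by
      rw [e1]
      have := add_self_K (E x (M + 1))
      linear_combination (-1 : K2) * this
    have h9 : s * E x 1 + E x (M + 1) ≠ 0 := by
      rw [← e8]
      exact mul_ne_zero (polyEmb_ne_zero hne) hs0
    have h10 := dg_add_le h9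
    rw [← e8, dg_mul (polyEmb_ne_zero hne) hs0, dg_mul hs0 (E_ne hx 1), dg_polyEmb hne, dg_E hx,
      dg_E hx] at h10
    have h11 : dg s = -(D x M : ℤ) := by rw [hs, dg_E hx]
    have h12 : D x 0 < D x 1 := D_lt hx 0
    rw [D_zero] at h12
    rcases le_max_iff.1 h10 with h | h <;> omega
  rw [hu'0, map_zero, zero_mul, zero_add] at e1
  rw [cq_eq_div hx M, cq_eq_div hx 0, ← e1, ← hs]
  show s / (s * E x 1) = 1 / E x 1
  have := E_ne hx 1
  field_simp

theorem cq_periodic_all {x : K2} {M : ℕ} (h : completeQuot x (M + 1) = completeQuot x 1) (n : ℕ) :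
    completeQuot x (n + 1 + M) = completeQuot x (n + 1) := by
  induction n with
  | zero =>
    rw [zero_add, add_comm 1 M]
    exact h
  | succ n ih =>
    have h1 : n + 1 + 1 + M = (n + 1 + M) + 1 := by ring
    rw [h1, completeQuot_succ, completeQuot_succ x (n + 1)]
    unfold partialQuot
    rw [ih]

end Pool.Agent.H.MP_81ecdf_nt
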