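import Mathlib

/-!
Definitions for the escape of mass problem for quadratic irrationals over function fields.
`LaurentSeries F` is used with its variable standing for `t⁻¹`, so that it is the field
`F((t⁻¹))` of the problem.
-/

open Polynomial Filter Topology

namespace Pool.Agent.H.MP_81ecdf_nt

variable {F : Type*} [Field F]

/-- The embedding of `F[t]` in `F((t⁻¹))`: the variable of `LaurentSeries F` stands for `t⁻¹`,
so that `t` is sent to the series with the single coefficient `1` at exponent `-1`. -/
noncomputable def polyEmb (F : Type*) [Field F] : F[X] →+* LaurentSeries F :=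
  Polynomial.eval₂RingHom (HahnSeries.C) (HahnSeries.single (-1 : ℤ) (1 : F))

/-- The polynomial part `∑_{n ≤ 0} a_n t^{-n}` of `∑ a_n t^{-n}`. -/
noncomputable def polyPart (x : LaurentSeries F) : F[X] :=
  ∑ i ∈ Finset.range ((-x.order).toNat + 1), Polynomial.monomial i (x.coeff (-(i : ℤ)))

/-- The complete quotients of the continued fraction expansion of `x`. -/
noncomputable def completeQuot (x : LaurentSeries F) : ℕ → LaurentSeries F
  | 0 => x
  | (n + 1) => (completeQuot x n - polyEmb F (polyPart (completeQuot x n)))⁻¹

/-- The partial quotients `A_0, A_1, A_2, …` of the continued fraction expansion of `x`. -/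
noncomputable def partialQuot (x : LaurentSeries F) (n : ℕ) : F[X] :=
  polyPart (completeQuot x n)

/-- `l` is a positive number such that the sequence `a` is periodic with period `l` from some
index on. -/
def IsEventualPeriod {α : Type*} (a : ℕ → α) (l : ℕ) : Prop :=
  0 < l ∧ ∃ N, ∀ i, N ≤ i → a (i + l) = a i

/-- The length of the period of an eventually periodic sequence (its least eventual period). -/
noncomputable def periodLength {α : Type*} (a : ℕ → α) : ℕ :=
  sInf {l | IsEventualPeriod a l}

/-- The least index from which an eventually periodic sequence is periodic. -/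
noncomputable def periodStart {α : Type*} (a : ℕ → α) : ℕ :=
  sInf {N | ∀ i, N ≤ i → a (i + periodLength a) = a i}

/-- For `x` with eventually periodic continued fraction expansion, with partial quotients
`A_1, …, A_l` of one period: `∑ max(deg A_i - n, 0) / ∑ deg A_i`. -/
noncomputable def escapeRatio (x : LaurentSeries F) (n : ℕ) : ℝ :=
  (∑ i ∈ Finset.range (periodLength (partialQuot x)),
      max (((partialQuot x (periodStart (partialQuot x) + i)).natDegree : ℝ) - n) 0) /
    (∑ i ∈ Finset.range (periodLength (partialQuot x)),
      ((partialQuot x (periodStart (partialQuot x) + i)).natDegree : ℝ))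

/-- `x` is irrational (not in `F(t)`) and a root of a quadratic equation over `F[t]`. -/
def IsQuadraticIrrational (x : LaurentSeries F) : Prop :=
  (∀ p q : F[X], q ≠ 0 → polyEmb F q * x ≠ polyEmb F p) ∧
    ∃ a b c : F[X], a ≠ 0 ∧ polyEmb F a * x ^ 2 + polyEmb F b * x + polyEmb F c = 0

/-- `x` exhibits full maximal escape of mass with respect to `{P ^ k}`. -/
def FullMaximalEscape (P : F[X]) (x : LaurentSeries F) : Prop :=
  Tendsto (fun n : ℕ => limsup (fun k : ℕ => escapeRatio (x * polyEmb F P ^ k) n) atTop)
    atTop (𝓝 1)

end Pool.Agent.H.MP_81ecdf_nt
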