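import Pool.Agent.H.MP_81ecdf_nt.Arith

/-! The period of `(t+1)^k Θ` and the block of small partial quotients. -/

open Polynomial

namespace Pool.Agent.H.MP_81ecdf_nt

noncomputable def al (k : ℕ) : K2 := theta * em PP ^ k

theorem irr_al (k : ℕ) : Irr (al k) := by
  intro p q hq h
  apply irr_theta p (q * PP ^ k) (mul_ne_zero hq (pow_ne_zero _ PP_ne_zero))
  show em _ * _ = em _
  have h' : em q * al k = em p := h
  rw [← h', al]
  simp only [map_mul, map_pow]
  ring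

theorem lat_mul {k : ℕ} {A B q0 r : F2[X]} (h1 : B = PP ^ k * q0) (h2 : X ^ 3 * r = B * (X ^ 2 + 1))
    {z : K2} (hz : Lat (al k) z) : Lat (al k) ((em A + em B * theta) * z) := by
  obtain ⟨q, p, rfl⟩ := hz
  refine ⟨q * A + q0 * p + q * B, p * A + q * PP ^ k * r, ?_⟩
  have h3 := theta_sq
  have h4 := congrArg em h2
  have h5 := congrArg em h1
  have hT : em (X ^ 3) ≠ 0 := polyEmb_ne_zero (pow_ne_zero 3 X_ne_zero)
  apply mul_left_cancel₀ hT
  unfold al
  simp only [map_mul, map_add, map_pow, map_one] at h3 h4 h5 ⊢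
  have h6 := add_self_K (em X ^ 3 * em q * em B * theta * em PP ^ k)
  linear_combination (em q * em B * em PP ^ k) * h3 - (em q * em PP ^ k) * h4 +
    (em X ^ 3 * em p * theta) * h5 - h6

theorem ss_pow' (j : ℕ) : ss ^ (2 ^ j) * (em (AA j + X ^ (3 * 2 ^ j) * PP ^ (2 * 2 ^ j)) +
    em (X ^ (3 * 2 ^ j) * PP ^ (2 * 2 ^ j)) * theta) = 1 := by
  have h1 : (ss * (ss + em (X ^ 3 * PP ^ 2))) ^ (2 ^ j) = 1 := by
    rw [ss_mul, one_pow]
  rw [mul_pow, frob_K, ← map_pow, mul_pow, ← pow_mul, ← pow_mul] at h1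
  rw [← h1, map_add]
  conv_rhs => rw [ss_pow]
  conv_lhs => rw [ss_pow]
  ring

theorem AA_rel (j : ℕ) : AA j ^ 2 + AA j * (X ^ (3 * 2 ^ j) * PP ^ (2 * 2 ^ j)) +
    X ^ (6 * 2 ^ j - 3) * PP ^ (4 * 2 ^ j + 2) = 1 := by
  have h1 := ss_pow' j
  rw [ss_pow] at h1
  apply polyEmb_injective
  set N := 2 ^ j with hN
  have hN1 : 1 ≤ N := Nat.one_le_two_pow
  obtain ⟨m, hm⟩ : ∃ m, 6 * N = m + 3 := ⟨6 * N - 3, by omega⟩
  have e5 : 6 * N - 3 = m := by omega
  rw [e5]
  have h2 := theta_sq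
  have h3 := congrArg em PP_sq
  have e8 : em (X ^ (3 * N) * PP ^ (2 * N)) ^ 2 = em X ^ (m + 3) * em PP ^ (4 * N) := by
    rw [← map_pow, mul_pow, ← pow_mul, ← pow_mul, map_mul, map_pow, map_pow]
    congr 2 <;> omega
  set B := X ^ (3 * N) * PP ^ (2 * N) with hB
  simp only [map_mul, map_add, map_pow, map_one] at h1 h2 h3 e8 ⊢
  have h4 := add_self_K (em (AA j) * em B * theta)
  linear_combination h1 - (theta ^ 2 + theta) * e8 - (em X ^ m * em PP ^ (4 * N)) * h2 +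
    (em X ^ m * em PP ^ (4 * N)) * h3 - h4

theorem period_exists (k j : ℕ) (hk1 : 1 ≤ k) (hk2 : k ≤ 2 * 2 ^ j) :
    ∃ M, 1 ≤ M ∧ D (al k) M = 5 * 2 ^ j ∧
      ∀ n, completeQuot (al k) (n + 1 + M) = completeQuot (al k) (n + 1) := by
  have hrel := AA_rel j
  have hss := ss_pow j
  have hss' := ss_pow' j
  set N := 2 ^ j with hN
  have hN1 : 1 ≤ N := Nat.one_le_two_pow
  set q0 : F2[X] := X ^ (3 * N) * PP ^ (2 * N - k) with hq0
  have hB : X ^ (3 * N) * PP ^ (2 * N) = PP ^ k * q0 := by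
    rw [hq0]
    have : PP ^ (2 * N) = PP ^ k * PP ^ (2 * N - k) := by
      rw [← pow_add]; congr 1; omega
    rw [this]; ring
  have hq0ne : q0 ≠ 0 := mul_ne_zero (pow_ne_zero _ X_ne_zero) (pow_ne_zero _ PP_ne_zero)
  have hq0deg : q0.natDegree = 3 * N + (2 * N - k) := by
    rw [hq0, natDegree_mul (pow_ne_zero _ X_ne_zero) (pow_ne_zero _ PP_ne_zero), natDegree_pow,
      natDegree_pow, natDegree_X, PP_natDegree]
    ring
  have hcop : IsCoprime q0 (AA j) := by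
    refine ⟨X ^ (3 * N - 3) * PP ^ (2 * N + k + 2), AA j + X ^ (3 * N) * PP ^ (2 * N), ?_⟩
    rw [← hrel]
    have e1 : X ^ (6 * N - 3) * PP ^ (4 * N + 2) =
        X ^ (3 * N - 3) * PP ^ (2 * N + k + 2) * q0 := by
      rw [hq0]
      have e2 : 6 * N - 3 = (3 * N - 3) + 3 * N := by omega
      have e3 : 4 * N + 2 = (2 * N + k + 2) + (2 * N - k) := by omega
      rw [e2, e3, pow_add, pow_add (PP)]
      ring
    rw [e1]
    ring
  have hval : em q0 * al k + em (AA j) = ss ^ N := by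
    rw [hss, hB, al]
    simp only [map_mul, map_pow]
    ring
  have hdg : dg (ss ^ N) = -5 * N := by
    rw [dg_pow ss_ne, dg_ss]; ring
  obtain ⟨n, hn1, hn2⟩ := legendre (irr_al k) hq0ne hcop (by
    rw [hval, hdg, hq0deg]
    push_cast
    omega)
  have hE : ss ^ N = E (al k) (n + 1) := by
    rw [E_eq (irr_al k), ← hn1, ← hn2, hval]
  obtain ⟨r, hr⟩ : ∃ r : F2[X], X ^ 3 * r = X ^ (3 * N) * PP ^ (2 * N) * (X ^ 2 + 1) := by
    refine ⟨X ^ (3 * N - 3) * PP ^ (2 * N) * (X ^ 2 + 1), ?_⟩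
    have : (X : F2[X]) ^ (3 * N) = X ^ 3 * X ^ (3 * N - 3) := by
      rw [← pow_add]; congr 1; omega
    rw [this]
    ring
  refine ⟨n + 1, by omega, ?_, ?_⟩
  · have h1 := dg_E (irr_al k) (n + 1)
    rw [← hE, hdg] at h1
    omega
  · intro i
    apply cq_periodic_all
    apply cq_periodic (irr_al k) hE hss'
    · intro z hz
      rw [hss]
      exact lat_mul hB hr hz
    · intro z hz
      exact lat_mul hB hr hz


theorem al_eq (j : ℕ) : em (PP ^ (2 * 2 ^ j)) * theta =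
    theta + em (X ^ (2 ^ j) + 1 + HH j) + phi ^ (2 ^ j) := by
  set N := 2 ^ j with hN
  have h1 : PP ^ (2 * N) = X ^ (2 * N) + 1 := by
    have := PP_pow (j + 1)
    rw [pow_succ, mul_comm (2 ^ j) 2] at this
    exact this
  have h2 := theta_pow j
  rw [← hN] at h2
  have h3 : em (X ^ (2 * N)) * theta ^ N = em (X ^ N + 1) + phi ^ N := by
    have e1 : em (X ^ 2) * theta = em (X + 1) + phi := by
      unfold phi
      have := add_self_K (em (X + 1))
      linear_combination -this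
    have e2 : em (X ^ (2 * N)) * theta ^ N = (em (X ^ 2) * theta) ^ N := by
      rw [mul_pow, ← map_pow, ← pow_mul]
    have e3 : ((X : F2[X]) + 1) ^ N = X ^ N + 1 := PP_pow j
    rw [e2, e1, frob_K, ← map_pow, ← hN, e3]
  rw [h1]
  simp only [map_add, map_pow, map_one] at h2 h3 ⊢
  have h4 := add_self_K (em (HH j))
  linear_combination h3 - h2 - h4

noncomputable def DN (j : ℕ) : F2[X] :=
  X ^ (2 * 2 ^ j + 3) + X ^ 3 * PP ^ (2 ^ j) * HH j + PP ^ (3 * 2 ^ j + 2)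

theorem norm_rel (j : ℕ) : X ^ 3 * ((X ^ (2 ^ j) + 1 + HH j) ^ 2 + (X ^ (2 ^ j) + 1 + HH j)) +
    (X ^ 2 + 1) = PP ^ (2 ^ j) * DN j := by
  have h1 := H_rel j
  have h2 : HH (j + 1) = X ^ (2 * 2 ^ j) * HH j + X ^ (3 * 2 ^ j) + X ^ (2 ^ j) := rfl
  have p1 := PP_pow j
  have p2 := PP_pow (j + 1)
  have p4 := PP_pow (j + 2)
  have e2 : 2 ^ (j + 1) = 2 * 2 ^ j := by rw [pow_succ]; ring
  have e4 : 2 ^ (j + 2) = 4 * 2 ^ j := by rw [pow_succ, pow_succ]; ring
  rw [e2] at p2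
  rw [e4] at p4
  have ps := PP_sq
  unfold DN
  rw [h2] at h1
  set N := 2 ^ j with hN
  set h := HH j
  have e5 : PP ^ N * (X ^ (2 * N + 3) + X ^ 3 * PP ^ N * h + PP ^ (3 * N + 2)) =
      PP ^ N * X ^ (2 * N + 3) + X ^ 3 * PP ^ (2 * N) * h + PP ^ (4 * N) * PP ^ 2 := by
    ring
  rw [e5, ps, p1, p2, p4, sq_add_P, sq_add_P]
  have h5 := add_self_P (X ^ 3)
  have h6 := add_self_P (X ^ 3 * X ^ N)
  have h7 := add_self_P (X ^ 3 * h * X ^ (2 * N))
  have h8 := add_self_P (X ^ (4 * N) * (X ^ 2 + 1))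
  linear_combination h1 + h5 + h6 - h8

theorem main_ineq {j k m : ℕ} (hk : k + m = 2 * 2 ^ j) (hm : m ≤ 2 ^ j) {q p : F2[X]}
    (hq : q ≠ 0) :
    (em PP ^ m * (em q * al k + em p) + em q * phi ^ (2 ^ j) ≠ 0) ∧
    (em PP ^ m * (em q * al k + em p) + em q * phi ^ (2 ^ j) + em q ≠ 0) ∧
    (m : ℤ) - 3 ≤ dg (em PP ^ m * (em q * al k + em p) + em q * phi ^ (2 ^ j)) +
      dg (em PP ^ m * (em q * al k + em p) + em q * phi ^ (2 ^ j) + em q) := by
  have h1 := al_eq j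
  have h2 := norm_rel j
  set N := 2 ^ j with hN
  set c := X ^ N + 1 + HH j with hc
  set ζ := em PP ^ m * (em q * al k + em p) + em q * phi ^ N with hζ
  have hζ1 : ζ = em q * theta + em (q * c + PP ^ m * p) := by
    rw [hζ, al]
    have e1 : em (PP ^ (2 * N)) = em PP ^ m * em PP ^ k := by
      rw [← pow_add, ← map_pow, ← hk, add_comm]
    rw [e1] at h1
    have h3 := add_self_K (em q * phi ^ N)
    simp only [map_mul, map_add, map_pow] at h1 ⊢
    linear_combination (em q) * h1 + h3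
  have hζne : ζ ≠ 0 := by
    rw [hζ1]
    exact lin_ne irr_theta (Or.inl hq)
  have hζ2 : ζ + em q = em q * theta + em (q * c + PP ^ m * p + q) := by
    rw [hζ1, map_add _ (q * c + PP ^ m * p) q]
    ring
  have hζ2ne : ζ + em q ≠ 0 := by
    rw [hζ2]
    exact lin_ne irr_theta (Or.inl hq)
  refine ⟨hζne, hζ2ne, ?_⟩
  set Fp : F2[X] := q ^ 2 * PP ^ (N - m) * DN j + X ^ 3 * PP ^ m * p ^ 2 + X ^ 3 * p * q with hFp
  have key : em (X ^ 3) * (ζ * (ζ + em q)) = em (PP ^ m * Fp) := by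
    have e1 : PP ^ m * Fp = q ^ 2 * (PP ^ N * DN j) + X ^ 3 * (PP ^ m * p) ^ 2 +
        X ^ 3 * (PP ^ m * p) * q := by
      have : PP ^ N = PP ^ m * PP ^ (N - m) := by
        rw [← pow_add]; congr 1; omega
      rw [hFp, this]
      ring
    rw [e1, ← h2, hζ1]
    have h3 := theta_sq
    simp only [map_mul, map_add, map_pow, map_one] at h3 ⊢
    have h4 := add_self_K (em X ^ 3 * em q * theta * (em q * em c + em PP ^ m * em p))
    have h5 := add_self_K (em X ^ 3 * em q * em c * (em PP ^ m * em p))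
    linear_combination (em q) ^ 2 * h3 + h4 + h5
  have hFne : Fp ≠ 0 := by
    intro h0
    rw [h0, mul_zero, map_zero] at key
    have := mul_ne_zero (polyEmb_ne_zero (pow_ne_zero 3 (X_ne_zero : (X : F2[X]) ≠ 0)))
      (mul_ne_zero hζne hζ2ne)
    exact this key
  have h3 := congrArg dg key
  rw [dg_mul (polyEmb_ne_zero (pow_ne_zero 3 X_ne_zero)) (mul_ne_zero hζne hζ2ne),
    dg_mul hζne hζ2ne, dg_polyEmb (pow_ne_zero 3 X_ne_zero),
    dg_polyEmb (mul_ne_zero (pow_ne_zero _ PP_ne_zero) hFne),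
    natDegree_mul (pow_ne_zero _ PP_ne_zero) hFne, natDegree_pow, natDegree_pow, natDegree_X,
    PP_natDegree] at h3
  push_cast at h3
  omega

/-- consequences for the degrees of the denominators of the convergents -/
theorem block {j k m : ℕ} (hk : k + m = 2 * 2 ^ j) (hm : m ≤ 2 ^ j) (i : ℕ) :
    (m ≤ D (al k) i + D (al k) (i + 1) → D (al k) i + D (al k) (i + 1) < 2 ^ j + m →
      D (al k) (i + 1) ≤ D (al k) i + 3) ∧
    (D (al k) i + D (al k) (i + 1) < m → 2 * D (al k) (i + 1) ≤ m + 3) ∧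
    (2 ^ j + m ≤ D (al k) i + D (al k) (i + 1) → 2 ^ j + m ≤ 2 * D (al k) i + 3) := by
  have hx := irr_al k
  obtain ⟨hq, hqd⟩ := Qn_deg hx i
  obtain ⟨h1, h2, h3⟩ := main_ineq hk hm (p := Pn (al k) (i + 1)) hq
  rw [← E_eq hx] at h1 h2 h3
  set N := 2 ^ j with hN
  set q := Qn (al k) (i + 1) with hqdef
  have hPm : em PP ^ m ≠ 0 := pow_ne_zero _ (polyEmb_ne_zero PP_ne_zero)
  have dPm : dg (em PP ^ m) = m := by
    rw [← map_pow]
    show dg (polyEmb F2 _) = _
    rw [dg_polyEmb (pow_ne_zero _ PP_ne_zero), natDegree_pow, PP_natDegree, mul_one]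
  have a1 : em PP ^ m * E (al k) (i + 1) ≠ 0 := mul_ne_zero hPm (E_ne hx _)
  have d1 : dg (em PP ^ m * E (al k) (i + 1)) = m - D (al k) (i + 1) := by
    rw [dg_mul hPm (E_ne hx _), dPm, dg_E hx]
    ring
  have dq : dg (em q) = D (al k) i := by
    show dg (polyEmb F2 _) = _
    rw [dg_polyEmb hq, hqd]
  have hqne : em q ≠ 0 := polyEmb_ne_zero hq
  have d2 : em q * phi ^ N ≠ 0 → dg (em q * phi ^ N) ≤ D (al k) i - N := by
    intro h
    have h4 : phi ^ N ≠ 0 := right_ne_zero_of_mul h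
    rw [dg_mul hqne h4, dq]
    have := dg_phi_pow N h4
    omega
  set ζ := em PP ^ m * E (al k) (i + 1) + em q * phi ^ N with hζ
  have d3 := dg_add_le h2
  rw [dq] at d3
  refine ⟨?_, ?_, ?_⟩
  · intro c1 c2
    have d4 : dg ζ = m - D (al k) (i + 1) := by
      rw [hζ, add_comm]
      rw [(dg_add_lt (fun h => by have := d2 h; rw [d1]; omega) a1).2, d1]
    rw [d4] at d3 h3
    rcases le_max_iff.1 d3 with h | h <;> omega
  · intro c1
    have d4 : dg ζ = m - D (al k) (i + 1) := by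
      rw [hζ, add_comm]
      rw [(dg_add_lt (fun h => by have := d2 h; rw [d1]; omega) a1).2, d1]
    rw [d4] at d3 h3
    rcases le_max_iff.1 d3 with h | h <;> omega
  · intro c1
    have d4 : dg ζ ≤ D (al k) i - N := by
      by_cases h0 : em q * phi ^ N = 0
      · rw [hζ, h0, add_zero, d1]
        omega
      · have := dg_add_le h1
        rw [← hζ, d1] at this
        have := d2 h0
        rcases le_max_iff.1 ‹dg ζ ≤ _› with h | h <;> omega
    rcases le_max_iff.1 d3 with h | h <;> omega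

end Pool.Agent.H.MP_81ecdf_nt
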