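import Pool.Agent.H.MP_81ecdf_nt.Period

/-! Periods of eventually periodic sequences and the bound for the ratio. -/

open Polynomial Filter Topology

namespace Pool.Agent.H.MP_81ecdf_nt

section periods

variable {α : Type*} {a : ℕ → α} {c : ℕ}

theorem periodLength_spec (h : IsEventualPeriod a c) : IsEventualPeriod a (periodLength a) :=
  Nat.sInf_mem (s := {l | IsEventualPeriod a l}) ⟨c, h⟩

theorem periodLength_le (h : IsEventualPeriod a c) : periodLength a ≤ c :=
  Nat.sInf_le (s := {l | IsEventualPeriod a l}) h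

theorem periodStart_spec (h : IsEventualPeriod a c) (i : ℕ) (hi : periodStart a ≤ i) :
    a (i + periodLength a) = a i := by
  obtain ⟨_, N, hN⟩ := periodLength_spec h
  exact Nat.sInf_mem (s := {N | ∀ i, N ≤ i → a (i + periodLength a) = a i}) ⟨N, hN⟩ i hi

theorem add_mul_period (h : IsEventualPeriod a c) (m : ℕ) (i : ℕ) (hi : periodStart a ≤ i) :
    a (i + m * periodLength a) = a i := by
  induction m with
  | zero => simp
  | succ m ih =>
    have : i + (m + 1) * periodLength a = (i + m * periodLength a) + periodLength a := by ring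
    rw [this, periodStart_spec h _ (by omega), ih]

theorem periodLength_dvd (h : IsEventualPeriod a c) : periodLength a ∣ c := by
  have hl := (periodLength_spec h).1
  rw [Nat.dvd_iff_mod_eq_zero]
  by_contra hr
  have hr0 : 0 < c % periodLength a := Nat.pos_of_ne_zero hr
  obtain ⟨_, N, hN⟩ := h
  have h' : IsEventualPeriod a c := ⟨by assumption, N, hN⟩
  have : IsEventualPeriod a (c % periodLength a) := by
    refine ⟨hr0, N + periodStart a, fun i hi => ?_⟩
    rw [← add_mul_period h' (c / periodLength a) (i + c % periodLength a) (by omega)]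
    have e : i + c % periodLength a + c / periodLength a * periodLength a = i + c := by
      have := Nat.mod_add_div c (periodLength a)
      rw [mul_comm] at this
      omega
    rw [e]
    exact hN i (by omega)
  have h1 := periodLength_le this
  have h2 := Nat.mod_lt c hl
  omega

/-- sums over windows of an eventually periodic sequence of reals -/
theorem window_shift {b : ℕ → ℝ} {l n0 : ℕ} (h : ∀ i, n0 ≤ i → b (i + l) = b i) (n : ℕ)
    (hn : n0 ≤ n) : ∑ i ∈ Finset.range l, b (n + i) = ∑ i ∈ Finset.range l, b (n0 + i) := by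
  induction n, hn using Nat.le_induction with
  | base => rfl
  | succ n hn ih =>
    rw [← ih]
    have h1 := Finset.sum_range_succ (fun i => b (n + i)) l
    have h2 := Finset.sum_range_succ' (fun i => b (n + i)) l
    have h3 : ∑ i ∈ Finset.range l, b (n + 1 + i) = ∑ i ∈ Finset.range l, b (n + (i + 1)) := by
      apply Finset.sum_congr rfl
      intro i _
      congr 1
      ring
    rw [h3]
    have h4 := h n hn
    simp only [add_zero] at h2
    linarith

theorem window_mul {b : ℕ → ℝ} {l n0 : ℕ} (h : ∀ i, n0 ≤ i → b (i + l) = b i) (m : ℕ) :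
    ∑ i ∈ Finset.range (m * l), b (n0 + i) = m * ∑ i ∈ Finset.range l, b (n0 + i) := by
  induction m with
  | zero => simp
  | succ m ih =>
    have e : (m + 1) * l = m * l + l := by ring
    rw [e, Finset.sum_range_add, ih]
    have h1 := window_shift h (n0 + m * l) (by omega)
    have h2 : ∑ x ∈ Finset.range l, b (n0 + (m * l + x)) =
        ∑ i ∈ Finset.range l, b (n0 + m * l + i) := by
      apply Finset.sum_congr rfl
      intro i _
      congr 1
      ring
    rw [h2, h1]
    push_cast
    ring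

/-- The sum of `φ` over the first `c` terms after index `0` is `c / l` times the sum over one
period. -/
theorem sum_period (hc : 0 < c) (h : ∀ n, a (n + 1 + c) = a (n + 1)) :
    ∃ m : ℕ, 0 < m ∧ ∀ φ : α → ℝ, ∑ i ∈ Finset.range c, φ (a (i + 1)) =
      m * ∑ i ∈ Finset.range (periodLength a), φ (a (periodStart a + i)) := by
  have hp : IsEventualPeriod a c := by
    refine ⟨hc, 1, fun i hi => ?_⟩
    obtain ⟨n, rfl⟩ := Nat.exists_eq_add_of_le' hi
    exact h n
  obtain ⟨m, hm⟩ := periodLength_dvd hp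
  refine ⟨m, ?_, fun φ => ?_⟩
  · rcases Nat.eq_zero_or_pos m with h0 | h0
    · subst h0
      omega
    · exact h0
  · set b : ℕ → ℝ := fun i => φ (a i) with hb
    have hb1 : ∀ i, 1 ≤ i → b (i + c) = b i := by
      intro i hi
      obtain ⟨n, rfl⟩ := Nat.exists_eq_add_of_le' hi
      simp only [hb]
      rw [h n]
    have hb2 : ∀ i, periodStart a ≤ i → b (i + periodLength a) = b i := by
      intro i hi
      simp only [hb]
      rw [periodStart_spec hp i hi]
    have e1 : ∑ i ∈ Finset.range c, φ (a (i + 1)) = ∑ i ∈ Finset.range c, b (1 + i) := by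
      apply Finset.sum_congr rfl
      intro i _
      rw [add_comm]
    rw [e1, ← window_shift hb1 (1 + periodStart a) (by omega)]
    have hb3 : ∀ i, periodStart a ≤ i → b (i + c) = b i := by
      intro i hi
      rw [hm, mul_comm]
      simp only [hb]
      rw [add_mul_period hp m i hi]
    rw [window_shift hb3 (1 + periodStart a) (by omega)]
    have := window_mul hb2 m
    rw [mul_comm m (periodLength a), ← hm] at this
    exact this

end periods

theorem D_mono {x : K2} (hx : Irr x) {i j : ℕ} (h : i ≤ j) : D x i ≤ D x j :=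
  (D_strictMono hx).monotone h

/-- the bound on one (not necessarily minimal) period -/
theorem sum_bound {j k m : ℕ} (hk : k + m = 2 * 2 ^ j) (hm : m ≤ 2 ^ j) {M : ℕ}
    (hD : D (al k) M = 5 * 2 ^ j) (n : ℕ) (hn : 3 ≤ n) :
    ∑ i ∈ Finset.range M, max (((partialQuot (al k) (i + 1)).natDegree : ℝ) - n) 0 ≤
      9 / 2 * 2 ^ j + 3 := by
  have hx := irr_al k
  set N := 2 ^ j with hN
  have hN1 : 1 ≤ N := Nat.one_le_two_pow
  have hNr : ((2 : ℝ) ^ j) = (N : ℝ) := by rw [hN]; push_cast; rfl
  have hex : ∀ B : ℕ, ∃ i, B ≤ D (al k) i + D (al k) (i + 1) := by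
    intro B
    refine ⟨B, ?_⟩
    have := (D_strictMono hx).id_le B
    simp only [id_eq] at this
    omega
  obtain ⟨i0, h0, h0min⟩ : ∃ i0, m ≤ D (al k) i0 + D (al k) (i0 + 1) ∧
      ∀ i < i0, ¬ m ≤ D (al k) i + D (al k) (i + 1) :=
    ⟨Nat.find (hex m), Nat.find_spec (hex m), fun i hi => Nat.find_min (hex m) hi⟩
  obtain ⟨i1, h1, h1min⟩ : ∃ i1, N + m ≤ D (al k) i1 + D (al k) (i1 + 1) ∧
      ∀ i < i1, ¬ N + m ≤ D (al k) i + D (al k) (i + 1) :=
    ⟨Nat.find (hex (N + m)), Nat.find_spec (hex (N + m)), fun i hi => Nat.find_min (hex (N + m)) hi⟩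
  have h01 : i0 ≤ i1 := by
    by_contra hc
    push Not at hc
    exact h0min i1 hc (by omega)
  have hi1 : i1 ≤ M := by
    by_contra hc
    push Not at hc
    have := h1min M hc
    omega
  have d0 : 2 * D (al k) i0 ≤ m + 3 := by
    rcases Nat.eq_zero_or_pos i0 with h | h
    · subst h
      rw [D_zero]
      omega
    · obtain ⟨i, rfl⟩ := Nat.exists_eq_add_of_le' h
      have := h0min i (by omega)
      exact (block hk hm i).2.1 (by omega)
  have d1 : N + m ≤ 2 * D (al k) i1 + 3 := (block hk hm i1).2.2 h1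
  -- split the sum
  have hsplit : ∀ f : ℕ → ℝ, ∑ i ∈ Finset.range M, f i = ∑ i ∈ Finset.range i0, f i +
      ∑ i ∈ Finset.Ico i0 i1, f i + ∑ i ∈ Finset.Ico i1 M, f i := by
    intro f
    rw [Finset.range_eq_Ico, Finset.range_eq_Ico, Finset.sum_Ico_consecutive f (by omega) h01,
      Finset.sum_Ico_consecutive f (by omega) hi1]
  have hmid : ∑ i ∈ Finset.Ico i0 i1,
      max (((partialQuot (al k) (i + 1)).natDegree : ℝ) - n) 0 = 0 := by
    apply Finset.sum_eq_zero
    intro i hi
    rw [Finset.mem_Ico] at hi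
    have c1 := h1min i hi.2
    have c2 : m ≤ D (al k) i + D (al k) (i + 1) := by
      have := D_mono hx hi.1
      have := D_mono hx (Nat.succ_le_succ hi.1)
      simp only [Nat.succ_eq_add_one] at this
      omega
    have c3 := (block hk hm i).1 c2 (by omega)
    rw [D_succ] at c3
    apply max_eq_right
    have c4 : (partialQuot (al k) (i + 1)).natDegree ≤ n := by omega
    have : ((partialQuot (al k) (i + 1)).natDegree : ℝ) ≤ n := by exact_mod_cast c4
    linarith
  have hle : ∀ i, max (((partialQuot (al k) (i + 1)).natDegree : ℝ) - n) 0 ≤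
      ((partialQuot (al k) (i + 1)).natDegree : ℝ) := by
    intro i
    apply max_le
    · have : (0 : ℝ) ≤ n := Nat.cast_nonneg n
      linarith
    · exact Nat.cast_nonneg _
  have hDr : ∀ u, (D (al k) u : ℝ) =
      ∑ i ∈ Finset.range u, ((partialQuot (al k) (i + 1)).natDegree : ℝ) := by
    intro u
    unfold D
    push_cast
    rfl
  have hIco : ∑ i ∈ Finset.Ico i1 M, ((partialQuot (al k) (i + 1)).natDegree : ℝ) =
      D (al k) M - D (al k) i1 := by
    rw [hDr, hDr, Finset.sum_Ico_eq_sub _ hi1]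
  rw [hsplit, hmid, add_zero]
  have s1 : ∑ i ∈ Finset.range i0, max (((partialQuot (al k) (i + 1)).natDegree : ℝ) - n) 0 ≤
      D (al k) i0 := by
    rw [hDr]
    exact Finset.sum_le_sum (fun i _ => hle i)
  have s2 : ∑ i ∈ Finset.Ico i1 M, max (((partialQuot (al k) (i + 1)).natDegree : ℝ) - n) 0 ≤
      D (al k) M - D (al k) i1 := by
    rw [← hIco]
    exact Finset.sum_le_sum (fun i _ => hle i)
  rw [hD] at s2
  have r0 : 2 * (D (al k) i0 : ℝ) ≤ m + 3 := by exact_mod_cast d0
  have r1 : (N : ℝ) + m ≤ 2 * D (al k) i1 + 3 := by exact_mod_cast d1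
  rw [hNr]
  push_cast at s2
  linarith

theorem escapeRatio_le {k : ℕ} (hk : 1 ≤ k) (n : ℕ) (hn : 3 ≤ n) :
    0 ≤ escapeRatio (al k) n ∧ escapeRatio (al k) n ≤ 9 / 10 + 6 / 5 / k := by
  set j := Nat.log 2 k with hj
  have h1 : 2 ^ j ≤ k := Nat.pow_log_le_self 2 (by omega)
  have h2 : k < 2 ^ (j + 1) := Nat.lt_pow_succ_log_self (by norm_num) k
  rw [pow_succ] at h2
  obtain ⟨M, hM, hD, hper⟩ := period_exists k j hk (by omega)
  have hper' : ∀ n, partialQuot (al k) (n + 1 + M) = partialQuot (al k) (n + 1) := by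
    intro n
    unfold partialQuot
    rw [hper n]
  obtain ⟨c, hc, hsum⟩ := sum_period (by omega) hper'
  have hb := sum_bound (j := j) (k := k) (m := 2 * 2 ^ j - k) (by omega) (by omega) hD n hn
  have hA := hsum (fun p => max ((p.natDegree : ℝ) - n) 0)
  have hB := hsum (fun p => (p.natDegree : ℝ))
  rw [hA] at hb
  have hDr : ∑ i ∈ Finset.range M, ((partialQuot (al k) (i + 1)).natDegree : ℝ) = 5 * 2 ^ j := by
    have : ((D (al k) M : ℕ) : ℝ) = 5 * 2 ^ j := by rw [hD]; push_cast; ring
    rw [← this]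
    unfold D
    push_cast
    rfl
  rw [hDr] at hB
  unfold escapeRatio
  set S1 := ∑ i ∈ Finset.range (periodLength (partialQuot (al k))),
      max (((partialQuot (al k) (periodStart (partialQuot (al k)) + i)).natDegree : ℝ) - n) 0
    with hS1
  set S2 := ∑ i ∈ Finset.range (periodLength (partialQuot (al k))),
      ((partialQuot (al k) (periodStart (partialQuot (al k)) + i)).natDegree : ℝ) with hS2
  have hc' : (0 : ℝ) < c := by exact_mod_cast hc
  have hS1' : 0 ≤ S1 := Finset.sum_nonneg (fun i _ => le_max_right _ _)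
  have h2j : (0 : ℝ) < 2 ^ j := by positivity
  have hS2' : 0 < S2 := by
    have : 0 < (c : ℝ) * S2 := by rw [← hB]; positivity
    exact (pos_iff_pos_of_mul_pos this).1 hc'
  refine ⟨div_nonneg hS1' hS2'.le, ?_⟩
  have hkr : (k : ℝ) < 2 * 2 ^ j := by
    have : k < 2 * 2 ^ j := by omega
    exact_mod_cast this
  have hk0 : (0 : ℝ) < k := by exact_mod_cast hk
  have e1 : S1 / S2 = (c * S1) / (c * S2) := by
    field_simp
  rw [e1, ← hB, div_le_iff₀ (by positivity)]
  have e2 : (6 : ℝ) / 5 / k * (5 * 2 ^ j) ≥ 3 := by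
    rw [ge_iff_le, div_mul_eq_mul_div, le_div_iff₀ hk0]
    nlinarith
  nlinarith

theorem tendsto_bound : Tendsto (fun k : ℕ => (9 : ℝ) / 10 + 6 / 5 / (k : ℝ)) atTop (𝓝 (9 / 10)) := by
  have h : Tendsto (fun k : ℕ => (6 : ℝ) / 5 / (k : ℝ)) atTop (𝓝 0) :=
    tendsto_const_div_atTop_nhds_zero_nat _
  simpa using h.const_add (9 / 10 : ℝ)

theorem limsup_le (n : ℕ) (hn : 3 ≤ n) :
    limsup (fun k : ℕ => escapeRatio (al k) n) atTop ≤ 9 / 10 := by
  have h1 := tendsto_bound
  rw [← h1.limsup_eq]
  apply limsup_le_limsup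
  · filter_upwards [eventually_ge_atTop 1] with k hk
    exact (escapeRatio_le hk n hn).2
  · apply Filter.IsBoundedUnder.isCoboundedUnder_le
    refine ⟨0, ?_⟩
    rw [eventually_map]
    filter_upwards [eventually_ge_atTop 1] with k hk
    exact (escapeRatio_le hk n hn).1
  · exact h1.isBoundedUnder_le

end Pool.Agent.H.MP_81ecdf_nt
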