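import Pool.Agent.H.MP_81ecdf_nt.CF

/-! The series `Θ = ∑ (t^{-2^i} + t^{-3·2^i})` over `F_2`. -/

open Polynomial

namespace Pool.Agent.H.MP_81ecdf_nt

theorem F2_mul_self (a : F2) : a * a = a := by
  revert a
  decide

theorem F2_add_self (a : F2) : a + a = 0 := CharTwo.add_self_eq_zero a

/-- squares of power series over `F_2` -/
theorem coeff_sq (f : PowerSeries F2) (n : ℕ) :
    PowerSeries.coeff n (f * f) = if Even n then PowerSeries.coeff (n / 2) f else 0 := by
  rw [PowerSeries.coeff_mul]
  split_ifs with h
  · obtain ⟨m, hm⟩ := h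
    have hmem : (m, m) ∈ Finset.HasAntidiagonal.antidiagonal n := by
      rw [Finset.HasAntidiagonal.mem_antidiagonal]
      exact hm.symm
    rw [← Finset.add_sum_erase _ _ hmem, F2_mul_self]
    have : n / 2 = m := by omega
    rw [this]
    have h0 : ∑ x ∈ (Finset.HasAntidiagonal.antidiagonal n).erase (m, m),
        PowerSeries.coeff x.1 f * PowerSeries.coeff x.2 f = 0 := by
      refine Finset.sum_involution (fun x _ => x.swap) ?_ ?_ ?_ ?_
      · intro a _
        simp only [Prod.fst_swap, Prod.snd_swap]
        rw [mul_comm]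
        exact F2_add_self _
      · intro a ha _
        simp only [Finset.mem_erase, ne_eq, Finset.HasAntidiagonal.mem_antidiagonal] at ha
        intro h1
        apply ha.1
        have h2 := congrArg Prod.fst h1
        simp only [Prod.fst_swap] at h2
        ext
        · simp only; omega
        · simp only; omega
      · intro a ha
        simp only [Finset.mem_erase, ne_eq, Finset.HasAntidiagonal.mem_antidiagonal, Prod.fst_swap,
          Prod.snd_swap] at ha ⊢
        refine ⟨?_, by omega⟩
        intro h1
        apply ha.1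
        rw [← Prod.swap_swap a, h1]
        rfl
      · intro a _
        simp
    rw [h0, add_zero]
  · refine Finset.sum_involution (fun x _ => x.swap) ?_ ?_ ?_ ?_
    · intro a _
      simp only [Prod.fst_swap, Prod.snd_swap]
      rw [mul_comm]
      exact F2_add_self _
    · intro a ha _ h1
      rw [Finset.HasAntidiagonal.mem_antidiagonal] at ha
      have h2 := congrArg Prod.fst h1
      simp only [Prod.fst_swap] at h2
      apply h
      exact ⟨a.1, by omega⟩
    · intro a ha
      rw [Finset.HasAntidiagonal.mem_antidiagonal] at ha ⊢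
      simp only [Prod.fst_swap, Prod.snd_swap]
      omega
    · intro a _
      simp

open Classical in
/-- coefficients of `Θ`: `1` exactly at the integers `2^i` and `3·2^i` -/
noncomputable def cc (n : ℕ) : F2 := if ∃ i, n = 2 ^ i ∨ n = 3 * 2 ^ i then 1 else 0

theorem cc_even (n : ℕ) : cc (2 * n) = cc n := by
  unfold cc
  congr 1
  apply propext
  constructor
  · rintro ⟨i, h⟩
    rcases i with _ | i
    · simp only [pow_zero, mul_one] at h
      omega
    · refine ⟨i, ?_⟩
      rcases h with h | h
      · left
        rw [pow_succ] at h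
        omega
      · right
        rw [pow_succ] at h
        omega
  · rintro ⟨i, h⟩
    refine ⟨i + 1, ?_⟩
    rcases h with h | h
    · left
      rw [h, pow_succ]
      ring
    · right
      rw [h, pow_succ]
      ring

theorem cc_odd (n : ℕ) : cc (2 * n + 1) = if n = 0 ∨ n = 1 then 1 else 0 := by
  unfold cc
  congr 1
  apply propext
  constructor
  · rintro ⟨i, h⟩
    rcases i with _ | i
    · simp only [pow_zero, mul_one] at h
      omega
    · rw [pow_succ] at h
      omega
  · rintro (h | h)
    · exact ⟨0, by left; simp [h]⟩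
    · exact ⟨0, by right; simp [h]⟩

theorem cc_zero : cc 0 = 0 := by
  unfold cc
  rw [if_neg]
  rintro ⟨i, h⟩
  have : 0 < 2 ^ i := by positivity
  omega

theorem cc_one : cc 1 = 1 := by
  have := cc_odd 0
  simpa using this

theorem cc_two : cc 2 = 1 := by
  have := cc_even 1
  rw [cc_one] at this
  simpa using this

/-- The series as a power series in `t⁻¹`. -/
noncomputable def thetaPS : PowerSeries F2 := PowerSeries.mk cc

/-- The series `Θ = ∑_{i ≥ 0} (t^{-2^i} + t^{-3·2^i})`. -/
noncomputable def theta : K2 := HahnSeries.ofPowerSeries ℤ F2 thetaPS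

theorem thetaPS_sq : thetaPS * thetaPS + thetaPS = PowerSeries.X + PowerSeries.X ^ 3 := by
  ext n
  rw [map_add, coeff_sq, map_add, PowerSeries.coeff_X, PowerSeries.coeff_X_pow]
  simp only [thetaPS, PowerSeries.coeff_mk]
  rcases Nat.even_or_odd n with h | h
  · rw [if_pos h]
    obtain ⟨m, rfl⟩ := h
    have h1 : (m + m) / 2 = m := by omega
    have h2 : m + m = 2 * m := by ring
    rw [h1, h2, cc_even, F2_add_self, if_neg (by omega), if_neg (by omega), add_zero]
  · rw [if_neg (Nat.not_even_iff_odd.2 h)]
    obtain ⟨m, rfl⟩ := h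
    rw [cc_odd, zero_add]
    by_cases h0 : m = 0
    · subst h0; simp
    · by_cases h1 : m = 1
      · subst h1; simp
      · rw [if_neg (by omega), if_neg (by omega), if_neg (by omega), add_zero]

theorem coeff_theta_neg (n : ℤ) (hn : n < 0) : theta.coeff n = 0 := by
  unfold theta
  rw [HahnSeries.ofPowerSeries_apply]
  apply HahnSeries.embDomain_of_notMem_range
  rintro ⟨m, hm⟩
  have : (m : ℤ) = n := hm
  omega

theorem coeff_theta_nat (n : ℕ) : theta.coeff (n : ℤ) = cc n := by
  unfold theta
  rw [LaurentSeries.coeff_coe_powerSeries]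
  simp [thetaPS]

/-- `t = em X` -/
theorem em_X_mul_single : em X * HahnSeries.single (1 : ℤ) (1 : F2) = 1 := by
  rw [polyEmb_X, HahnSeries.single_mul_single]
  simp

theorem theta_sq : em (X ^ 3) * (theta ^ 2 + theta) = em (X ^ 2 + 1) := by
  have h : theta ^ 2 + theta = HahnSeries.single (1 : ℤ) (1 : F2) +
      HahnSeries.single (1 : ℤ) (1 : F2) ^ 3 := by
    have h1 := congrArg (HahnSeries.ofPowerSeries ℤ F2) thetaPS_sq
    rw [map_add, map_mul, map_add, map_pow, HahnSeries.ofPowerSeries_X] at h1
    rw [pow_two]
    exact h1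
  rw [h]
  have h2 := em_X_mul_single
  set u : K2 := HahnSeries.single (1 : ℤ) (1 : F2)
  simp only [map_add, map_pow, map_one]
  set T := em X
  have : T ^ 3 * (u + u ^ 3) = T ^ 2 * (T * u) + (T * u) ^ 3 := by ring
  rw [this, h2]
  ring

end Pool.Agent.H.MP_81ecdf_nt
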